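import Pool.Agent.H961.T5.Stm

/-!
JL-LEVYK (helper82, for helper961): finite form of the continuity theorem in `K` dimensions
-/

set_option autoImplicit false

namespace Pool.Agent.H82.JL

open Finset MeasureTheory Filter Topology ProbabilityTheory
open Pool.Agent.H961.T5

noncomputable section

/-- the law of a finite random vector -/
def lawK {K : ℕ} {Ω : Type} [Fintype Ω] (P : Ω → ℝ) (X : Fin K → Ω → ℝ) :
    Measure (EuclideanSpace ℝ (Fin K)) :=
  ∑ o, ENNReal.ofReal (P o) • Measure.dirac (WithLp.toLp 2 fun k => X k o)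

/-- the orthant below `y` -/
def box {K : ℕ} (y : Fin K → ℝ) : Set (EuclideanSpace ℝ (Fin K)) := {x | ∀ k, x k ≤ y k}

theorem box_closed {K : ℕ} (y : Fin K → ℝ) : IsClosed (box y) := by
  unfold box
  rw [Set.ofPred_forall]
  exact isClosed_iInter fun k => isClosed_le (by fun_prop) continuous_const

theorem lawK_prob {K : ℕ} {Ω : Type} [Fintype Ω] (P : Ω → ℝ) (X : Fin K → Ω → ℝ)
    (hP : ∀ o, 0 ≤ P o) (h1 : ∑ o, P o = 1) : IsProbabilityMeasure (lawK P X) := by
  constructor
  unfold lawK
  rw [Measure.finsetSum_apply]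
  simp only [Measure.smul_apply, smul_eq_mul, measure_univ, mul_one]
  rw [← ENNReal.ofReal_sum_of_nonneg fun o _ => hP o, h1, ENNReal.ofReal_one]

open Classical in
theorem lawK_real {K : ℕ} {Ω : Type} [Fintype Ω] (P : Ω → ℝ) (X : Fin K → Ω → ℝ)
    (hP : ∀ o, 0 ≤ P o) (y : Fin K → ℝ) :
    (lawK P X).real (box y) = ∑ o, P o * (if ∀ k, X k o ≤ y k then 1 else 0) := by
  unfold lawK Measure.real
  rw [Measure.finsetSum_apply, ENNReal.toReal_sum]
  · refine sum_congr rfl fun o _ => ?_
    rw [Measure.smul_apply, smul_eq_mul, ENNReal.toReal_mul, ENNReal.toReal_ofReal (hP o),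
      Measure.dirac_apply' _ (box_closed y).measurableSet]
    congr 1
    by_cases h : ∀ k, X k o ≤ y k
    · rw [if_pos h, Set.indicator_of_mem (show WithLp.toLp 2 (fun k => X k o) ∈ box y from h)]
      simp
    · rw [if_neg h, Set.indicator_of_notMem
        (show WithLp.toLp 2 (fun k => X k o) ∉ box y from fun h' => h h')]
      simp
  · intro o _
    rw [Measure.smul_apply, smul_eq_mul]
    exact ENNReal.mul_ne_top ENNReal.ofReal_ne_top (measure_ne_top _ _)

theorem lawK_charFun {K : ℕ} {Ω : Type} [Fintype Ω] (P : Ω → ℝ) (X : Fin K → Ω → ℝ)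
    (hP : ∀ o, 0 ≤ P o) (θ : EuclideanSpace ℝ (Fin K)) :
    charFun (lawK P X) θ = ∑ o, (P o : ℂ) *
      Complex.exp ((∑ k, θ k * X k o : ℝ) * Complex.I) := by
  rw [charFun_apply]
  unfold lawK
  have hint : ∀ o, Integrable
      (fun x : EuclideanSpace ℝ (Fin K) => Complex.exp ((inner ℝ x θ : ℝ) * Complex.I))
      (ENNReal.ofReal (P o) • Measure.dirac (WithLp.toLp 2 fun k => X k o)) := by
    intro o
    refine Integrable.smul_measure ?_ ENNReal.ofReal_ne_top
    refine Integrable.of_bound (C := 1) ?_ ?_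
    · exact (by fun_prop : Continuous fun x : EuclideanSpace ℝ (Fin K) =>
        Complex.exp ((inner ℝ x θ : ℝ) * Complex.I)).aestronglyMeasurable
    · exact Eventually.of_forall fun x => by
        rw [Complex.norm_exp_ofReal_mul_I]
  rw [integral_finsetSum_measure fun o _ => hint o]
  refine sum_congr rfl fun o _ => ?_
  rw [integral_smul_measure, integral_dirac, ENNReal.toReal_ofReal (hP o), Complex.real_smul]
  congr 3

theorem std_box {K : ℕ} (y : Fin K → ℝ) :
    (stdGaussian (EuclideanSpace ℝ (Fin K))).real (box y) =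
      ∏ k, (gaussianReal 0 1).real (Set.Iic (y k)) := by
  have h1 : stdGaussian (EuclideanSpace ℝ (Fin K)) (box y) =
      ∏ k, (gaussianReal 0 1) (Set.Iic (y k)) := by
    rw [← map_pi_eq_stdGaussian, Measure.map_apply (by fun_prop) (box_closed y).measurableSet]
    have h2 : WithLp.toLp 2 ⁻¹' (box y) = Set.univ.pi fun k => Set.Iic (y k) := by
      ext x
      simp [box, Pi.le_def]
    rw [h2, Measure.pi_pi]
  unfold Measure.real
  rw [h1, ENNReal.toReal_prod]

theorem std_face {K : ℕ} (k : Fin K) (c : ℝ) :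
    stdGaussian (EuclideanSpace ℝ (Fin K)) {x | x k = c} = 0 := by
  have hcl : IsClosed {x : EuclideanSpace ℝ (Fin K) | x k = c} :=
    isClosed_eq (by fun_prop) continuous_const
  rw [← map_pi_eq_stdGaussian, Measure.map_apply (by fun_prop) hcl.measurableSet]
  have h2 : WithLp.toLp 2 ⁻¹' {x : EuclideanSpace ℝ (Fin K) | x k = c} =
      {x : Fin K → ℝ | x k = c} := by
    ext x
    simp
  rw [h2]
  have := nullSingletonClass_gaussianReal (μ := 0) (v := 1) one_ne_zero
  exact Measure.pi_hyperplane _ _ _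

theorem std_frontier {K : ℕ} (y : Fin K → ℝ) :
    stdGaussian (EuclideanSpace ℝ (Fin K)) (frontier (box y)) = 0 := by
  refine measure_mono_null (t := ⋃ k : Fin K, {x | x k = y k}) ?_
    (measure_iUnion_null fun k => std_face k (y k))
  intro x hx
  rw [(box_closed y).frontier_eq] at hx
  by_contra hcon
  apply hx.2
  have hopen : IsOpen {x : EuclideanSpace ℝ (Fin K) | ∀ k, x k < y k} := by
    rw [Set.ofPred_forall]
    exact isOpen_iInter_of_finite fun k => isOpen_lt (by fun_prop) continuous_const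
  refine interior_maximal (fun z hz k => (hz k).le) hopen ?_
  intro k
  refine lt_of_le_of_ne (hx.1 k) fun h => hcon ?_
  exact Set.mem_iUnion.2 ⟨k, h⟩

/-- **S_LEVYK.** -/
theorem levyk : S_LEVYK := by
  intro K y ε hε
  by_contra hcon
  push Not at hcon
  have hk : ∀ n : ℕ, ∃ μ : ProbabilityMeasure (EuclideanSpace ℝ (Fin K)),
      (∀ θ : EuclideanSpace ℝ (Fin K), (∀ k, |θ k| ≤ n) →
        ‖charFun (μ : Measure (EuclideanSpace ℝ (Fin K))) θ -
          Complex.exp (-((∑ k, θ k ^ 2 : ℝ) : ℂ) / 2)‖ ≤ 1 / ((n : ℝ) + 1)) ∧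
      ε < |(μ : Measure (EuclideanSpace ℝ (Fin K))).real (box y) -
        ∏ k, (gaussianReal 0 1).real (Set.Iic (y k))| := by
    intro n
    obtain ⟨Ω, _, P, X, hP, h1, hθ, hy⟩ := hcon (1 / ((n : ℝ) + 1)) n (by positivity)
    have hprob := lawK_prob P X hP h1
    refine ⟨⟨lawK P X, hprob⟩, ?_, ?_⟩
    · intro θ h
      have := hθ θ h
      rw [← lawK_charFun P X hP] at this
      exact this
    · rw [← lawK_real P X hP] at hy
      exact hy
  choose μ hμ hy using hk
  let μ₀ : ProbabilityMeasure (EuclideanSpace ℝ (Fin K)) :=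
    ⟨stdGaussian (EuclideanSpace ℝ (Fin K)), inferInstance⟩
  have hchar : ∀ θ : EuclideanSpace ℝ (Fin K),
      Tendsto (fun n => charFun (μ n : Measure (EuclideanSpace ℝ (Fin K))) θ) atTop
      (𝓝 (charFun (μ₀ : Measure (EuclideanSpace ℝ (Fin K))) θ)) := by
    intro θ
    have h0 : charFun (μ₀ : Measure (EuclideanSpace ℝ (Fin K))) θ =
        Complex.exp (-((∑ k, θ k ^ 2 : ℝ) : ℂ) / 2) := by
      have h := charFun_stdGaussian (E := EuclideanSpace ℝ (Fin K)) θ
      refine h.trans ?_
      rw [← Complex.ofReal_pow, EuclideanSpace.norm_sq_eq]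
      simp only [Real.norm_eq_abs, sq_abs]
    rw [h0, tendsto_iff_norm_sub_tendsto_zero]
    refine squeeze_zero' (Eventually.of_forall fun n => norm_nonneg _) ?_
      tendsto_one_div_add_atTop_nhds_zero_nat
    filter_upwards [eventually_ge_atTop ⌈‖θ‖⌉₊] with n hn
    refine hμ n θ fun k => ?_
    rw [← Real.norm_eq_abs]
    exact (PiLp.norm_apply_le θ k).trans ((Nat.le_ceil _).trans (by exact_mod_cast hn))
  have hweak : Tendsto μ atTop (𝓝 μ₀) := ProbabilityMeasure.tendsto_of_tendsto_charFun hchar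
  have h := ProbabilityMeasure.tendsto_measure_of_null_frontier_of_tendsto' hweak
    (E := box y) (std_frontier y)
  have h2 := (ENNReal.tendsto_toReal (measure_ne_top _ _)).comp h
  have h3 : Tendsto (fun n => (μ n : Measure (EuclideanSpace ℝ (Fin K))).real (box y)) atTop
      (𝓝 (∏ k, (gaussianReal 0 1).real (Set.Iic (y k)))) := by
    rw [← std_box]
    exact h2
  have h4 := h3.eventually (Metric.closedBall_mem_nhds _ hε)
  obtain ⟨n, hn⟩ := h4.exists
  have h5 := hy n
  rw [Real.dist_eq] at hn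
  exact absurd h5 (not_lt.2 hn)

end

end Pool.Agent.H82.JL
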